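import Pool.Agent.LE.StmtsB

/-!
# Row SYM of Theorem B: reflections and transpositions of the coordinates
-/

set_option autoImplicit false

open MeasureTheory ProbabilityTheory Function

open scoped ENNReal BigOperators

noncomputable section

namespace Pool.Agent.LE.H86B

open Pool.Agent.Anderson Pool.Agent.Loc Pool.Agent.Mob Pool.Agent.Helper54.Bal Pool.Agent.LE

variable {d : ℕ}

/-! ### composition with a permutation of the sites -/

theorem comp_mem (e : Site d ≃ Site d) (f : L2 d) : Memℓp (fun y => f (e y)) 2 := by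
  rw [memℓp_iff]
  exact (L2.summable_sq f).comp_injective e.injective

/-- `f ∘ e` -/
def ce (e : Site d ≃ Site d) (f : L2 d) : L2 d := ⟨fun y => f (e y), comp_mem e f⟩

theorem ce_apply (e : Site d ≃ Site d) (f : L2 d) (y : Site d) : ce e f y = f (e y) := rfl

/-- `e` commutes with the Laplacian -/
def LapInv (e : Site d ≃ Site d) : Prop :=
  ∀ (ψ : Site d → ℂ) (x : Site d), lap (fun y => ψ (e y)) x = lap ψ (e x)

theorem G_ce {e : Site d ≃ Site d} (he : LapInv e) {V : Cfg d} {z : ℂ} (hz : z.im ≠ 0)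
    (f : L2 d) : ce e (G V z f) = G (fun y => V (e y)) z (ce e f) := by
  apply G_unique hz
  intro x
  have h := G_eq (V := V) hz f (e x)
  have h1 : lap (ce e (G V z f)) x = lap (G V z f) (e x) := he (fun y => G V z f y) x
  rw [h1, ce_apply, ce_apply]
  exact h

theorem ce_del {e : Site d ≃ Site d} (h0 : e 0 = 0) : ce e (del 0) = del 0 := by
  ext y
  rw [ce_apply, del_apply, del_apply]
  have h : (e y = 0) ↔ (y = 0) := by
    constructor
    · intro h
      apply e.injective
      rw [h, h0]
    · intro h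
      rw [h, h0]
  by_cases hy : y = 0
  · rw [if_pos (h.2 hy), if_pos hy]
  · rw [if_neg (fun h' => hy (h.1 h')), if_neg hy]

theorem G_zero {e : Site d ≃ Site d} (he : LapInv e) (h0 : e 0 = 0) {V : Cfg d} {z : ℂ}
    (hz : z.im ≠ 0) (y : Site d) :
    G (fun y => V (e y)) z (del 0) y = G V z (del 0) (e y) := by
  rw [← ce_apply, G_ce he hz, ce_del h0]

/-! ### invariance of the law -/

theorem meas_comp (e : Site d ≃ Site d) : Measurable fun (V : Cfg d) (y : Site d) => V (e y) :=
  measurable_pi_lambda _ fun y => measurable_pi_apply (e y)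

theorem mp_comp (e : Site d ≃ Site d) (μ : Measure ℝ) [IsProbabilityMeasure μ] :
    MeasurePreserving (fun (V : Cfg d) (y : Site d) => V (e y)) (PP d μ) (PP d μ) := by
  refine ⟨meas_comp e, ?_⟩
  apply Measure.eq_infinitePi
  intro s t ht
  rw [Measure.map_apply (meas_comp e) (MeasurableSet.pi s.countable_toSet fun i _ => ht i)]
  classical
  have e1 : (fun (V : Cfg d) (y : Site d) => V (e y)) ⁻¹' (Set.pi (s : Set (Site d)) t) =
      Set.pi ((s.map e.toEmbedding : Finset (Site d)) : Set (Site d))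
        (fun j => t (e.symm j)) := by
    ext V
    simp only [Set.mem_preimage, Set.mem_pi, Finset.mem_coe, Finset.mem_map,
      Equiv.coe_toEmbedding]
    constructor
    · rintro h j ⟨i, hi, rfl⟩
      rw [Equiv.symm_apply_apply]
      exact h i hi
    · intro h i hi
      have := h (e i) ⟨i, hi, rfl⟩
      rwa [Equiv.symm_apply_apply] at this
  rw [e1]
  unfold PP
  rw [Measure.infinitePi_pi _ (fun i _ => ht _), Finset.prod_map]
  apply Finset.prod_congr rfl
  intro i _
  rw [Equiv.coe_toEmbedding, Equiv.symm_apply_apply]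

/-! ### the limits -/

theorem key (σ E : ℝ) (ee : ℕ → ℝ) (g : Cfg d → Site d → Site d → ℂ) (C : ℝ) (μ : Site d → ℝ)
    (hee : ∀ k, 0 < ee k)
    (hlim : ∀ᵐ V ∂(PP d (gl σ)), ∀ x y, Filter.Tendsto
      (fun k => G V (zz (ee k) E) (del x) y) Filter.atTop (nhds (g V x y)))
    (hA : ApG d (PP d (gl σ)) C (fun V x y => ‖g V x y‖))
    (hmu : ∀ x, Filter.Tendsto (fun n : ℕ => ∫ V, |-Real.log ‖g V 0 (sm n x)‖ / n - μ x|
      ∂(PP d (gl σ))) Filter.atTop (nhds 0))
    (e : Site d ≃ Site d) (he : LapInv e) (h0 : e 0 = 0)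
    (hs : ∀ (n : ℕ) (x : Site d), e (sm n x) = sm n (e x)) (x : Site d) : μ (e x) = μ x := by
  have hmp := mp_comp e (gl σ)
  -- the limit of the composed configuration
  have h1 : ∀ᵐ V ∂(PP d (gl σ)), ∀ y, g (fun u => V (e u)) 0 y = g V 0 (e y) := by
    filter_upwards [hlim, hmp.quasiMeasurePreserving.ae hlim] with V ha hb y
    have hb' := hb 0 y
    have ha' := ha 0 (e y)
    refine tendsto_nhds_unique hb' ?_
    refine ha'.congr fun k => ?_
    exact (G_zero he h0 (by rw [zz_im]; exact (hee k).ne') y).symm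
  have hlog : ∀ y, Integrable (fun V => Real.log ‖g V 0 y‖) (PP d (gl σ)) := by
    intro y
    have hm : AEStronglyMeasurable (fun V => Real.log ‖g V 0 y‖) (PP d (gl σ)) :=
      (Real.measurable_log.comp (hA.meas 0 y)).aestronglyMeasurable
    have h2 : MemLp (fun V => Real.log ‖g V 0 y‖) 2 (PP d (gl σ)) :=
      (memLp_two_iff_integrable_sq hm).2 (hA.sq 0 y).1
    exact h2.integrable (by norm_num)
  have hint : ∀ (n : ℕ) (y : Site d) (c : ℝ),
      Integrable (fun V => |-Real.log ‖g V 0 y‖ / n - c|) (PP d (gl σ)) := by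
    intro n y c
    exact (((hlog y).neg.div_const _).sub (integrable_const c)).abs
  -- equality of the integrals
  have h2 : ∀ n : ℕ, ∫ V, |-Real.log ‖g V 0 (sm n (e x))‖ / n - μ x| ∂(PP d (gl σ)) =
      ∫ V, |-Real.log ‖g V 0 (sm n x)‖ / n - μ x| ∂(PP d (gl σ)) := by
    intro n
    have h3 : ∫ V, |-Real.log ‖g V 0 (sm n x)‖ / n - μ x| ∂(PP d (gl σ)) =
        ∫ V, |-Real.log ‖g (fun u => V (e u)) 0 (sm n x)‖ / n - μ x| ∂(PP d (gl σ)) := by
      have h4 := hmp.map_eq
      conv_lhs => rw [← h4]
      rw [integral_map hmp.measurable.aemeasurable]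
      rw [h4]
      exact (hint n (sm n x) (μ x)).aestronglyMeasurable
    rw [h3]
    apply integral_congr_ae
    filter_upwards [h1] with V hV
    rw [hV, hs]
  have h5 : Filter.Tendsto (fun n : ℕ =>
      ∫ V, |-Real.log ‖g V 0 (sm n (e x))‖ / n - μ (e x)| ∂(PP d (gl σ)) +
      ∫ V, |-Real.log ‖g V 0 (sm n (e x))‖ / n - μ x| ∂(PP d (gl σ))) Filter.atTop (nhds 0) := by
    have h6 := (hmu (e x)).add ((hmu x).congr fun n => (h2 n).symm)
    rwa [add_zero] at h6
  have h7 : ∀ n : ℕ, |μ (e x) - μ x| ≤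
      ∫ V, |-Real.log ‖g V 0 (sm n (e x))‖ / n - μ (e x)| ∂(PP d (gl σ)) +
      ∫ V, |-Real.log ‖g V 0 (sm n (e x))‖ / n - μ x| ∂(PP d (gl σ)) := by
    intro n
    rw [← integral_add (hint n _ _) (hint n _ _)]
    have h8 : |μ (e x) - μ x| = ∫ _V : Cfg d, |μ (e x) - μ x| ∂(PP d (gl σ)) := by
      rw [integral_const, probReal_univ, one_smul]
    rw [h8]
    apply integral_mono (integrable_const _) ((hint n _ _).add (hint n _ _))
    intro V
    have h9 := abs_sub_le (μ (e x)) (-Real.log ‖g V 0 (sm n (e x))‖ / n) (μ x)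
    have h10 := abs_sub_comm (μ (e x)) (-Real.log ‖g V 0 (sm n (e x))‖ / n)
    change |μ (e x) - μ x| ≤ |-Real.log ‖g V 0 (sm n (e x))‖ / n - μ (e x)| +
      |-Real.log ‖g V 0 (sm n (e x))‖ / n - μ x|
    rw [h10] at h9
    exact h9
  have h11 : |μ (e x) - μ x| ≤ 0 := ge_of_tendsto' h5 h7
  exact sub_eq_zero.1 (abs_nonpos_iff.1 h11)

/-! ### the two families of symmetries -/

theorem refl_refl (i : Fin d) (x : Site d) : refl i (refl i x) = x := by
  unfold refl
  rw [Function.update_idem, Function.update_self, neg_neg, Function.update_eq_self]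

/-- the reflection as an equivalence -/
def rE (i : Fin d) : Site d ≃ Site d where
  toFun := refl i
  invFun := refl i
  left_inv := refl_refl i
  right_inv := refl_refl i

theorem swp_swp (i j : Fin d) (x : Site d) : swp i j (swp i j x) = x := by
  funext k
  unfold swp
  rw [Equiv.swap_apply_self]

/-- the transposition as an equivalence -/
def sE (i j : Fin d) : Site d ≃ Site d where
  toFun := swp i j
  invFun := swp i j
  left_inv := swp_swp i j
  right_inv := swp_swp i j

theorem refl_add_same (i : Fin d) (x : Site d) (a : ℤ) :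
    refl i (x + Pi.single i a) = refl i x - Pi.single i a := by
  funext k
  by_cases hk : k = i
  · subst hk
    simp only [refl, Function.update_self, Pi.add_apply, Pi.sub_apply, Pi.single_eq_same]
    ring
  · simp only [refl, Function.update_of_ne hk, Pi.add_apply, Pi.sub_apply,
      Pi.single_eq_of_ne hk, add_zero, sub_zero]

theorem refl_add_ne {i j : Fin d} (h : j ≠ i) (x : Site d) (a : ℤ) :
    refl i (x + Pi.single j a) = refl i x + Pi.single j a := by
  funext k
  by_cases hk : k = i
  · subst hk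
    simp only [refl, Function.update_self, Pi.add_apply, Pi.single_eq_of_ne h.symm, add_zero]
  · simp only [refl, Function.update_of_ne hk, Pi.add_apply]

theorem lapInv_rE (i : Fin d) : LapInv (rE i) := by
  intro ψ x
  unfold lap
  apply Finset.sum_congr rfl
  intro j _
  change ψ (refl i (x + Pi.single j 1)) + ψ (refl i (x - Pi.single j 1)) =
    ψ (refl i x + Pi.single j 1) + ψ (refl i x - Pi.single j 1)
  have hn : x - Pi.single j (1 : ℤ) = x + Pi.single j (-1) := by
    rw [Pi.single_neg, sub_eq_add_neg]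
  rw [hn]
  by_cases h : j = i
  · subst h
    rw [refl_add_same, refl_add_same, Pi.single_neg, sub_neg_eq_add, add_comm]
  · rw [refl_add_ne h, refl_add_ne h, Pi.single_neg, ← sub_eq_add_neg]

theorem swp_add (i j k : Fin d) (x : Site d) (a : ℤ) :
    swp i j (x + Pi.single k a) = swp i j x + Pi.single (Equiv.swap i j k) a := by
  funext l
  unfold swp
  rw [Pi.add_apply, Pi.add_apply]
  congr 1
  by_cases h : l = Equiv.swap i j k
  · rw [h, Equiv.swap_apply_self, Pi.single_eq_same, Pi.single_eq_same]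
  · rw [Pi.single_eq_of_ne h, Pi.single_eq_of_ne]
    intro h'
    apply h
    rw [← h', Equiv.swap_apply_self]

theorem lapInv_sE (i j : Fin d) : LapInv (sE i j) := by
  intro ψ x
  unfold lap
  refine Eq.trans ?_ (Equiv.sum_comp (Equiv.swap i j) fun k =>
    ψ (sE i j x + Pi.single k 1) + ψ (sE i j x - Pi.single k 1))
  apply Finset.sum_congr rfl
  intro k _
  change ψ (swp i j (x + Pi.single k 1)) + ψ (swp i j (x - Pi.single k 1)) =
    ψ (swp i j x + Pi.single (Equiv.swap i j k) 1) +
      ψ (swp i j x - Pi.single (Equiv.swap i j k) 1)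
  have hn : x - Pi.single k (1 : ℤ) = x + Pi.single k (-1) := by
    rw [Pi.single_neg, sub_eq_add_neg]
  rw [hn, swp_add, swp_add, Pi.single_neg, ← sub_eq_add_neg]

theorem rE_zero (i : Fin d) : rE i 0 = 0 := by
  funext k
  change refl i 0 k = 0
  by_cases hk : k = i
  · subst hk
    simp [refl]
  · simp [refl, Function.update_of_ne hk]

theorem sE_zero (i j : Fin d) : sE i j 0 = 0 := rfl

theorem rE_sm (i : Fin d) (n : ℕ) (x : Site d) : rE i (sm n x) = sm n (rE i x) := by
  funext k
  change refl i (sm n x) k = n * refl i x k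
  by_cases hk : k = i
  · subst hk
    simp only [refl, Function.update_self, sm]
    ring
  · simp only [refl, Function.update_of_ne hk, sm]

theorem sE_sm (i j : Fin d) (n : ℕ) (x : Site d) : sE i j (sm n x) = sm n (sE i j x) := rfl

/-- Row SYM. -/
theorem sym : SymStmt := by
  intro d σ E e g C μ _ he _ hlim hA hmu
  exact ⟨fun i x => key σ E e g C μ he hlim hA hmu (rE i) (lapInv_rE i) (rE_zero i) (rE_sm i) x,
    fun i j x => key σ E e g C μ he hlim hA hmu (sE i j) (lapInv_sE i j) (sE_zero i j)
      (sE_sm i j) x⟩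

end Pool.Agent.LE.H86B
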